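import Mathlib

/-!
# The spectrum of a Toeplitz operator with rational symbol need not be a spectral set

We disprove Q1 of MP_3abc29_an.  The circle `𝕋` is parametrised by `t ∈ ℝ/ℤ ↦ e^{2πit}`
(`AddCircle.toCircle`), with normalised arc length (`AddCircle.haarAddCircle`).

Counterexample: for small `ε > 0` let
`F_ε(z) = (2z - 1)(2z + ε(z² - z + 1)) / (2 z² (2 - z))`.
On `𝕋` one has `F_ε(z) (1 - z/2) = (1 - z̄/2) (1 + ε (Re z - 1/2))`, so with `S` the unilateral shift,
`K = 1 - S/2` and `M = (S + S*)/2 - 1/2` we get `T_{F_ε} = K* (1 + ε M) K⁻¹`.  For `ε = 0` this is a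
contraction with spectrum in the unit circle whose inverse has norm `> 1`; upper semicontinuity of
the spectrum shows that for small `ε` the function `r(z) = 1/z` violates the spectral set
inequality.  For `ε > 0` the map `F_ε` is injective on `𝕋`, so `F_ε(𝕋)` is itself a simple closed
curve.
-/

open MeasureTheory Polynomial Filter Topology AddCircle
open scoped ENNReal ComplexConjugate InnerProductSpace

namespace Pool.Agent.Results.MP_3abc29_an.NotSpectral

noncomputable section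

/-! ## Definitions used in the statement -/

/-- `K` is the Hardy space `H²`: the subspace of all `h ∈ L²(𝕋)` whose Fourier coefficients with
negative index vanish.  The circle `𝕋` is parametrised by `ℝ/ℤ` via `t ↦ e^{2πit}` and carries
normalised arc length. -/
structure IsHardySpace (K : Submodule ℂ (Lp ℂ 2 (haarAddCircle : Measure UnitAddCircle))) :
    Prop where
  mem_iff : ∀ h : Lp ℂ 2 (haarAddCircle : Measure UnitAddCircle),
    h ∈ K ↔ ∀ n : ℤ, n < 0 → fourierCoeff h n = 0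

/-- `T : K → K` is the compression to the closed subspace `K ⊆ L²(𝕋)` of multiplication by `φ`:
for every `h ∈ K` the product `φ h` is (represented by) an element `g` of `L²(𝕋)`, and
`T h = P_K (φ h)`, i.e. `φ h - T h` is orthogonal to `K`.  If `K` is the Hardy space, this says that
`T` is the Toeplitz operator `T_φ` with symbol `φ`. -/
structure IsToeplitz (K : Submodule ℂ (Lp ℂ 2 (haarAddCircle : Measure UnitAddCircle)))
    (φ : UnitAddCircle → ℂ) (T : K →L[ℂ] K) : Prop where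
  proj_mul : ∀ h : K, ∃ g : Lp ℂ 2 (haarAddCircle : Measure UnitAddCircle),
    (g =ᵐ[haarAddCircle] fun t => φ t * h.1 t) ∧ g - T h ∈ Kᗮ

/-- `Ω` is a spectral set (von Neumann) for the bounded Hilbert space operator `T`: `Ω` is closed,
contains the spectrum of `T`, and for every rational function `r = p / q` without poles in `Ω` one
has `‖r(T)‖ ≤ sup_Ω |r|` (every upper bound of `|r|` on `Ω` is an upper bound of `‖r(T)‖`, where
`r(T) = p(T) q(T)⁻¹`). -/
structure IsSpectralSet {H : Type*} [NormedAddCommGroup H] [InnerProductSpace ℂ H]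
    (Ω : Set ℂ) (T : H →L[ℂ] H) : Prop where
  isClosed : IsClosed Ω
  spectrum_subset : spectrum ℂ T ⊆ Ω
  norm_le : ∀ p q : ℂ[X], (∀ z ∈ Ω, q.eval z ≠ 0) →
      ∀ M : ℝ, (∀ z ∈ Ω, ‖p.eval z / q.eval z‖ ≤ M) →
        ‖aeval T p * Ring.inverse (aeval T q)‖ ≤ M

/-! ## Auxiliary definitions -/

/-- `L²(𝕋)` with respect to normalised arc length; the circle `𝕋` is parametrised by `ℝ/ℤ`. -/
abbrev L2T : Type := Lp ℂ 2 (haarAddCircle : Measure UnitAddCircle)

/-- The Hardy space `H²`: the closed linear span in `L²(𝕋)` of the monomials `z ^ n`, `n ≥ 0`. -/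
def hardySpace : Submodule ℂ L2T :=
  (Submodule.span ℂ (Set.range fun n : ℕ => (fourierLp 2 (n : ℤ) : L2T))).topologicalClosure

instance instCompleteHardy : CompleteSpace hardySpace := by unfold hardySpace; infer_instance

/-- Multiplication by the (continuous, hence bounded) function `φ` on `L²(𝕋)`. -/
def mulOp (φ : C(UnitAddCircle, ℂ)) : L2T →L[ℂ] L2T :=
  (ContinuousLinearMap.mul ℂ ℂ).holderL haarAddCircle ∞ 2 2
    (ContinuousMap.toLp ∞ haarAddCircle ℂ φ)

/-- The Toeplitz operator `T_φ h = P (φ h)` on `H²`, where `P` is the orthogonal projection of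
`L²(𝕋)` onto `H²`. -/
def toeplitz (φ : C(UnitAddCircle, ℂ)) : hardySpace →L[ℂ] hardySpace :=
  hardySpace.orthogonalProjectionOnto ∘L mulOp φ ∘L hardySpace.subtypeL

/-! ## Multiplication operators and Toeplitz operators -/

lemma mulOp_coe (φ : C(UnitAddCircle, ℂ)) (h : L2T) :
    mulOp φ h =ᵐ[haarAddCircle] fun t => φ t * h t := by
  have h1 := ContinuousLinearMap.coeFn_holder (r := 2) (ContinuousLinearMap.mul ℂ ℂ)
    (ContinuousMap.toLp ∞ (haarAddCircle : Measure UnitAddCircle) ℂ φ) h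
  have h2 := ContinuousMap.coeFn_toLp (p := ∞)
    (haarAddCircle : Measure UnitAddCircle) (𝕜 := ℂ) φ
  unfold mulOp
  rw [ContinuousLinearMap.holderL_apply_apply]
  filter_upwards [h1, h2] with t h1 h2
  rw [h1, h2]
  rfl

lemma mulOp_mul (φ ψ : C(UnitAddCircle, ℂ)) (h : L2T) :
    mulOp (φ * ψ) h = mulOp φ (mulOp ψ h) := by
  apply Lp.ext
  filter_upwards [mulOp_coe (φ * ψ) h, mulOp_coe φ (mulOp ψ h), mulOp_coe ψ h] with t h1 h2 h3
  rw [h1, h2, h3, ContinuousMap.mul_apply, mul_assoc]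

lemma mulOp_one (h : L2T) : mulOp 1 h = h := by
  apply Lp.ext
  filter_upwards [mulOp_coe 1 h] with t h1
  rw [h1]; simp

lemma mulOp_add (φ ψ : C(UnitAddCircle, ℂ)) : mulOp (φ + ψ) = mulOp φ + mulOp ψ := by
  unfold mulOp; rw [map_add, map_add]

lemma mulOp_smul (c : ℂ) (φ : C(UnitAddCircle, ℂ)) : mulOp (c • φ) = c • mulOp φ := by
  unfold mulOp; rw [map_smul, map_smul]

lemma mulOp_sub (φ ψ : C(UnitAddCircle, ℂ)) : mulOp (φ - ψ) = mulOp φ - mulOp ψ := by
  unfold mulOp; rw [map_sub, map_sub]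

lemma mulOp_inner (φ : C(UnitAddCircle, ℂ)) (f g : L2T) :
    ⟪mulOp φ f, g⟫_ℂ = ⟪f, mulOp (star φ) g⟫_ℂ := by
  rw [L2.inner_def, L2.inner_def]
  apply integral_congr_ae
  filter_upwards [mulOp_coe φ f, mulOp_coe (star φ) g] with t h1 h2
  rw [h1, h2]
  simp only [RCLike.inner_apply, ContinuousMap.star_apply, map_mul]
  simp only [RCLike.star_def]
  ring

lemma toeplitz_add (φ ψ : C(UnitAddCircle, ℂ)) : toeplitz (φ + ψ) = toeplitz φ + toeplitz ψ := by
  unfold toeplitz
  rw [mulOp_add]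
  ext x
  simp

lemma toeplitz_smul (c : ℂ) (φ : C(UnitAddCircle, ℂ)) : toeplitz (c • φ) = c • toeplitz φ := by
  unfold toeplitz
  rw [mulOp_smul]
  ext x
  simp

lemma toeplitz_sub (φ ψ : C(UnitAddCircle, ℂ)) : toeplitz (φ - ψ) = toeplitz φ - toeplitz ψ := by
  unfold toeplitz
  rw [mulOp_sub]
  ext x
  simp

lemma toeplitz_one : toeplitz 1 = 1 := by
  unfold toeplitz
  apply ContinuousLinearMap.ext
  intro x
  simp [mulOp_one]

lemma toeplitz_star (φ : C(UnitAddCircle, ℂ)) :
    toeplitz (star φ) = star (toeplitz φ) := by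
  rw [ContinuousLinearMap.star_eq_adjoint, ContinuousLinearMap.eq_adjoint_iff]
  intro x y
  unfold toeplitz
  simp only [ContinuousLinearMap.comp_apply, Submodule.subtypeL_apply]
  rw [Submodule.inner_orthogonalProjectionOnto_eq_of_mem_right,
    Submodule.inner_orthogonalProjectionOnto_eq_of_mem_left, mulOp_inner, star_star]

/-- `T_{φψ} = T_φ T_ψ` if `ψ H² ⊆ H²`. -/
lemma toeplitz_mul (φ ψ : C(UnitAddCircle, ℂ))
    (hψ : ∀ h ∈ hardySpace, mulOp ψ h ∈ hardySpace) :
    toeplitz (φ * ψ) = toeplitz φ * toeplitz ψ := by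
  apply ContinuousLinearMap.ext
  intro x
  unfold toeplitz
  simp only [ContinuousLinearMap.comp_apply, Submodule.subtypeL_apply, mul_apply_eq_comp]
  rw [mulOp_mul]
  congr 2
  have := hψ x x.2
  exact (Submodule.starProjection_eq_self_iff.2 this).symm

lemma mulOp_fourier (m n : ℤ) :
    mulOp (fourier m) (fourierLp 2 n : L2T) = fourierLp 2 (m + n) := by
  apply Lp.ext
  filter_upwards [mulOp_coe (fourier m) (fourierLp 2 n : L2T), coeFn_fourierLp (T := 1) 2 n,
    coeFn_fourierLp (T := 1) 2 (m + n)] with t h1 h2 h3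
  rw [h1, h2, h3, fourier_add]

lemma fourierLp_mem (n : ℕ) : (fourierLp 2 (n : ℤ) : L2T) ∈ hardySpace :=
  Submodule.le_topologicalClosure _ (Submodule.subset_span ⟨n, rfl⟩)

lemma shift_mem : ∀ h ∈ hardySpace, mulOp (fourier 1) h ∈ hardySpace := by
  have h1 : hardySpace ≤ hardySpace.comap (mulOp (fourier 1)).toLinearMap := by
    apply Submodule.topologicalClosure_minimal
    · rw [Submodule.span_le]
      rintro _ ⟨n, rfl⟩
      simp only [SetLike.mem_coe, Submodule.mem_comap, ContinuousLinearMap.coe_coe]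
      rw [mulOp_fourier, add_comm]
      exact_mod_cast fourierLp_mem (n + 1)
    · exact (Submodule.isClosed_topologicalClosure _).preimage (mulOp (fourier 1)).continuous
  exact h1

/-- The constant function `1` in `H²`. -/
def e0 : hardySpace := ⟨fourierLp 2 ((0 : ℕ) : ℤ), fourierLp_mem 0⟩

lemma norm_e0 : ‖e0‖ = 1 := by
  have := (orthonormal_fourier (T := 1)).1 ((0 : ℕ) : ℤ)
  exact this

/-- The unilateral shift, the Toeplitz operator with symbol `z`. -/
def shift : hardySpace →L[ℂ] hardySpace := toeplitz (fourier 1)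

lemma star_fourier_mul : (star (fourier 1) * fourier 1 : C(UnitAddCircle, ℂ)) = 1 := by
  ext t
  simp only [ContinuousMap.mul_apply, ContinuousMap.star_apply, ContinuousMap.one_apply]
  rw [RCLike.star_def, ← fourier_neg, ← fourier_add]
  simp

lemma star_shift_mul : star shift * shift = 1 := by
  unfold shift
  rw [← toeplitz_star, ← toeplitz_mul _ _ shift_mem, star_fourier_mul, toeplitz_one]

lemma star_shift_e0 : star shift e0 = 0 := by
  have h0 : (star (fourier 1) : C(UnitAddCircle, ℂ)) = fourier (-1) := by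
    ext t
    rw [ContinuousMap.star_apply, RCLike.star_def, ← fourier_neg]
  unfold shift
  rw [← toeplitz_star, h0]
  unfold toeplitz e0
  simp only [ContinuousLinearMap.comp_apply, Submodule.subtypeL_apply]
  rw [mulOp_fourier]
  rw [Submodule.orthogonalProjectionOnto_eq_zero_iff]
  unfold hardySpace
  rw [Submodule.orthogonal_closure]
  rw [Submodule.mem_orthogonal]
  intro u hu
  induction hu using Submodule.span_induction with
  | mem x hx =>
    obtain ⟨n, rfl⟩ := hx
    apply (orthonormal_fourier (T := 1)).2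
    simp
  | zero => simp
  | add x y _ _ hx hy => rw [inner_add_left, hx, hy, add_zero]
  | smul c x _ hx => rw [inner_smul_left, hx, mul_zero]

/-! ## The abstract operator argument -/

section Abstract

variable {H : Type*} [NormedAddCommGroup H] [InnerProductSpace ℂ H] [CompleteSpace H]

lemma norm_isometry (S : H →L[ℂ] H) (hS : star S * S = 1) (x : H) :
    ‖S x‖ = ‖x‖ := by
  have h1 : ⟪S x, S x⟫_ℂ = ⟪x, x⟫_ℂ := by
    rw [← ContinuousLinearMap.adjoint_inner_left]
    have : (ContinuousLinearMap.adjoint S) (S x) = x := by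
      have := congrArg (fun A : H →L[ℂ] H => A x) hS
      simpa [ContinuousLinearMap.star_eq_adjoint] using this
    rw [this]
  have h2 : ‖S x‖ ^ 2 = ‖x‖ ^ 2 := by
    have := congrArg Complex.re h1
    rw [← RCLike.re_eq_complex_re, ← norm_sq_eq_re_inner, ← norm_sq_eq_re_inner] at this
    exact this
  exact (sq_eq_sq₀ (norm_nonneg _) (norm_nonneg _)).1 h2

lemma norm_S_le_one (S : H →L[ℂ] H) (hS : star S * S = 1) : ‖S‖ ≤ 1 :=
  ContinuousLinearMap.opNorm_le_bound _ zero_le_one (fun x => by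
    rw [norm_isometry S hS x, one_mul])

lemma hyponormal (S : H →L[ℂ] H) (hS : star S * S = 1) (y : H) :
    ‖(1 - (1/2 : ℂ) • star S) y‖ ≤ ‖(1 - (1/2 : ℂ) • S) y‖ := by
  have e1 : ‖(1 - (1/2 : ℂ) • star S) y‖ ^ 2 =
      ‖y‖ ^ 2 - 2 * RCLike.re ⟪y, (1/2 : ℂ) • (star S y)⟫_ℂ + ‖(1/2 : ℂ) • (star S y)‖ ^ 2 := by
    exact norm_sub_sq (𝕜 := ℂ) y ((1/2 : ℂ) • (star S y))
  have e2 : ‖(1 - (1/2 : ℂ) • S) y‖ ^ 2 =
      ‖y‖ ^ 2 - 2 * RCLike.re ⟪y, (1/2 : ℂ) • (S y)⟫_ℂ + ‖(1/2 : ℂ) • (S y)‖ ^ 2 := by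
    exact norm_sub_sq (𝕜 := ℂ) y ((1/2 : ℂ) • (S y))
  have e3 : RCLike.re ⟪y, (1/2 : ℂ) • (star S y)⟫_ℂ = RCLike.re ⟪y, (1/2 : ℂ) • (S y)⟫_ℂ := by
    have h1 : ⟪y, star S y⟫_ℂ = ⟪S y, y⟫_ℂ := by
      rw [ContinuousLinearMap.star_eq_adjoint, ContinuousLinearMap.adjoint_inner_right]
    rw [inner_smul_right, inner_smul_right, h1]
    have h2 : RCLike.re (⟪S y, y⟫_ℂ) = RCLike.re ⟪y, S y⟫_ℂ := inner_re_symm _ _
    simpa using h2
  have e4 : ‖(1/2 : ℂ) • (star S y)‖ ≤ ‖(1/2 : ℂ) • (S y)‖ := by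
    rw [norm_smul, norm_smul, norm_isometry S hS y]
    gcongr
    calc ‖(star S) y‖ ≤ ‖star S‖ * ‖y‖ := (star S).le_opNorm y
      _ ≤ 1 * ‖y‖ := by
          gcongr
          rw [norm_star]
          exact norm_S_le_one S hS
      _ = ‖y‖ := one_mul _
  have e5 : ‖(1/2 : ℂ) • (star S y)‖ ^ 2 ≤ ‖(1/2 : ℂ) • (S y)‖ ^ 2 := by gcongr
  have e6 : ‖(1 - (1/2 : ℂ) • star S) y‖ ^ 2 ≤ ‖(1 - (1/2 : ℂ) • S) y‖ ^ 2 := by
    rw [e1, e2, e3]; linarith
  exact (sq_le_sq₀ (norm_nonneg _) (norm_nonneg _)).1 e6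

lemma star_K (S : H →L[ℂ] H) : star (1 - (1/2 : ℂ) • S) = 1 - (1/2 : ℂ) • star S := by
  rw [star_sub, star_one, star_smul]; simp

lemma star_mul_aux (A B : H →L[ℂ] H) : star (star A * B) = star B * A := by
  rw [star_mul, star_star]

lemma K_isUnit (S : H →L[ℂ] H) (hS : star S * S = 1) : IsUnit (1 - (1/2 : ℂ) • S) := by
  apply isUnit_one_sub_of_norm_lt_one
  rw [norm_smul]
  have := norm_S_le_one S hS
  have h2 : ‖(1/2 : ℂ)‖ = 1/2 := by norm_num
  rw [h2]; linarith

/-- Let `S` be a non-unitary isometry, `K = 1 - S/2`, `M = (S + S*)/2 - 1/2` and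
`T ε = K* (1 + ε M) K⁻¹`.  For all small `ε` the spectrum of `T ε` is not a spectral set. -/
lemma abstract_main (S : H →L[ℂ] H) (hS : star S * S = 1) (e : H) (he : ‖e‖ = 1)
    (hSe : star S e = 0) (T : ℝ → (H →L[ℂ] H))
    (hT : ∀ ε : ℝ, T ε * (1 - (1/2 : ℂ) • S) = (1 - (1/2 : ℂ) • star S) *
      (1 + (ε : ℂ) • ((1/2 : ℂ) • (S + star S) - (1/2 : ℂ) • 1))) :
    ∀ᶠ ε in 𝓝 (0 : ℝ), ¬ IsSpectralSet (spectrum ℂ (T ε)) (T ε) := by
  set K : H →L[ℂ] H := 1 - (1/2 : ℂ) • S with hK
  have hKu : IsUnit K := K_isUnit S hS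
  set M : H →L[ℂ] H := (1/2 : ℂ) • (S + star S) - (1/2 : ℂ) • 1 with hM
  have hKstar : star K = 1 - (1/2 : ℂ) • star S := star_K S
  rw [← hKstar] at hT
  obtain ⟨Ku, hKu'⟩ := hKu
  have hTe : ∀ ε : ℝ, T ε = star K * (1 + (ε : ℂ) • M) * (↑Ku⁻¹ : H →L[ℂ] H) := by
    intro ε
    rw [← hT ε, ← hKu', mul_assoc, Units.mul_inv, mul_one]
  have hTcont : Continuous T := by
    have : T = fun ε : ℝ => star K * (1 + (ε : ℂ) • M) * (↑Ku⁻¹ : H →L[ℂ] H) := funext hTe
    rw [this]
    fun_prop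
  have hT0 : T 0 * K = star K := by
    rw [hT 0]; simp
  -- `T 0` is a contraction
  have hcontr : ‖T 0‖ ≤ 1 := by
    apply ContinuousLinearMap.opNorm_le_bound _ zero_le_one
    intro x
    have hx : K ((↑Ku⁻¹ : H →L[ℂ] H) x) = x := by
      have : K * (↑Ku⁻¹ : H →L[ℂ] H) = 1 := by rw [← hKu', Units.mul_inv]
      have := congrArg (fun A : H →L[ℂ] H => A x) this
      simpa using this
    set y := (↑Ku⁻¹ : H →L[ℂ] H) x with hy
    have h1 : T 0 x = star K y := by
      rw [← hT0, ← hx]; rfl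
    rw [h1, one_mul, ← hx, hKstar]
    exact hyponormal S hS y
  -- the spectrum of `T 0` contains no point of the open unit disc
  have hspec : spectrum ℂ (T 0) ⊆ {z : ℂ | 19/20 < ‖z‖} := by
    intro z hz
    by_contra hcon
    have hz1 : ‖z‖ < 1 := by
      have : ¬ (19/20 < ‖z‖) := hcon
      linarith
    have h1 : ‖conj z • T 0‖ < 1 := by
      rw [norm_smul, RCLike.norm_conj]
      calc ‖z‖ * ‖T 0‖ ≤ ‖z‖ * 1 := by gcongr
        _ < 1 := by linarith
    have h2 : IsUnit (1 - conj z • T 0) := isUnit_one_sub_of_norm_lt_one h1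
    have h3 : IsUnit ((1 - conj z • T 0) * K) := h2.mul ⟨Ku, hKu'⟩
    have h4 : (1 - conj z • T 0) * K = K - conj z • star K := by
      rw [sub_mul, one_mul, smul_mul_assoc, hT0]
    rw [h4] at h3
    have h5 : IsUnit (star K - z • K) := by
      have := h3.star
      rw [star_sub, star_smul, star_star] at this
      simpa using this
    have h6 : star K - z • K = (T 0 - algebraMap ℂ (H →L[ℂ] H) z) * K := by
      rw [sub_mul, hT0, Algebra.algebraMap_eq_smul_one, smul_mul_assoc, one_mul]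
    rw [h6] at h5
    have h7 : IsUnit (T 0 - algebraMap ℂ (H →L[ℂ] H) z) := by
      have h8 : T 0 - algebraMap ℂ (H →L[ℂ] H) z =
          ((T 0 - algebraMap ℂ (H →L[ℂ] H) z) * K) * (↑Ku⁻¹ : H →L[ℂ] H) := by
        rw [mul_assoc, ← hKu', Units.mul_inv, mul_one]
      rw [h8]
      exact h5.mul (Units.isUnit _)
    apply hz
    rw [spectrum.mem_resolventSet_iff, ← IsUnit.neg_iff, neg_sub]
    exact h7
  have hopen : IsOpen {z : ℂ | 19/20 < ‖z‖} := isOpen_lt continuous_const continuous_norm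
  have hup := (upperHemicontinuous_spectrum ℂ (H →L[ℂ] H)) (T 0)
  have hup2 : ∀ᶠ A in 𝓝 (T 0), {z : ℂ | 19/20 < ‖z‖} ∈ 𝓝ˢ (spectrum ℂ A) :=
    hup _ (hopen.mem_nhdsSet.2 hspec)
  have hup3 : ∀ᶠ ε in 𝓝 (0 : ℝ), {z : ℂ | 19/20 < ‖z‖} ∈ 𝓝ˢ (spectrum ℂ (T ε)) :=
    (hTcont.tendsto 0).eventually hup2
  -- the test vector
  have hv0 : T 0 (K e) = e := by
    have : T 0 (K e) = (T 0 * K) e := rfl
    rw [this, hT0, hKstar]
    simp [hSe]
  have hv : ∀ᶠ ε in 𝓝 (0 : ℝ), ‖T ε (K e)‖ < 21/20 := by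
    have hc : Continuous fun ε : ℝ => ‖T ε (K e)‖ :=
      (hTcont.clm_apply continuous_const).norm
    have : ‖T 0 (K e)‖ < 21/20 := by rw [hv0, he]; norm_num
    exact (hc.tendsto 0).eventually (gt_mem_nhds this)
  have hKe : ‖K e‖ ^ 2 = 5/4 := by
    have h1 : ‖e - (1/2 : ℂ) • S e‖ ^ 2 = ‖e‖ ^ 2 - 2 * RCLike.re ⟪e, (1/2 : ℂ) • (S e)⟫_ℂ +
      ‖(1/2 : ℂ) • (S e)‖ ^ 2 := norm_sub_sq (𝕜 := ℂ) e ((1/2 : ℂ) • (S e))
    have h2 : ⟪e, S e⟫_ℂ = 0 := by
      rw [← ContinuousLinearMap.adjoint_inner_left, ← ContinuousLinearMap.star_eq_adjoint, hSe,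
        inner_zero_left]
    have h3 : K e = e - (1/2 : ℂ) • S e := by rw [hK]; simp
    rw [h3, h1, inner_smul_right, h2, norm_smul, norm_isometry S hS e, he]
    norm_num
  filter_upwards [hup3, hv] with ε h1 h2 hsp
  have hsub : spectrum ℂ (T ε) ⊆ {z : ℂ | 19/20 < ‖z‖} := subset_of_mem_nhdsSet h1
  replace hsp := hsp.norm_le
  have h3 := hsp 1 X (by
    intro z hz
    have := hsub hz
    simp only [Set.mem_ofPred_eq] at this
    simp only [eval_X]
    intro h0
    rw [h0, norm_zero] at this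
    linarith) (20/19) (by
    intro z hz
    have := hsub hz
    simp only [Set.mem_ofPred_eq] at this
    rw [eval_one, eval_X, norm_div, norm_one, div_le_div_iff₀ (by linarith) (by norm_num)]
    linarith)
  have hunit : IsUnit (T ε) := by
    by_contra hn
    have : (0 : ℂ) ∈ spectrum ℂ (T ε) := by
      rw [spectrum.zero_mem_iff]; exact hn
    have := hsub this
    simp only [Set.mem_ofPred_eq, norm_zero] at this
    linarith
  rw [map_one, aeval_X, one_mul] at h3
  have h4 : K e = Ring.inverse (T ε) (T ε (K e)) := by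
    have := Ring.inverse_mul_cancel (T ε) hunit
    have := congrArg (fun A : H →L[ℂ] H => A (K e)) this
    simpa using this.symm
  have h5 : ‖K e‖ ≤ 20/19 * (21/20) := by
    calc ‖K e‖ = ‖Ring.inverse (T ε) (T ε (K e))‖ := by rw [← h4]
      _ ≤ ‖Ring.inverse (T ε)‖ * ‖T ε (K e)‖ := ContinuousLinearMap.le_opNorm _ _
      _ ≤ 20/19 * (21/20) := by gcongr
  have h6 : ‖K e‖ ^ 2 ≤ (20/19 * (21/20)) ^ 2 := by gcongr
  rw [hKe] at h6
  norm_num at h6

end Abstract

/-! ## The symbols `F_ε` -/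

/-- numerator of `F_ε(z) = (2z - 1)(2z + ε(z² - z + 1)) / (2 z² (2 - z))` -/
def numP (ε : ℝ) : ℂ[X] := (2 * X - 1) * (2 * X + C (ε : ℂ) * (X ^ 2 - X + 1))

/-- denominator of `F_ε` -/
def denQ : ℂ[X] := 2 * X ^ 2 * (2 - X)

lemma denQ_ne (z : ℂ) (hz : ‖z‖ = 1) : denQ.eval z ≠ 0 := by
  have h0 : z ≠ 0 := by rintro rfl; simp at hz
  have h2 : (2 : ℂ) - z ≠ 0 := by
    intro h
    have : z = 2 := by linear_combination -h
    rw [this] at hz
    norm_num at hz
  simp only [denQ, eval_mul, eval_pow, eval_X, eval_sub, eval_ofNat]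
  exact mul_ne_zero (mul_ne_zero two_ne_zero (pow_ne_zero 2 h0)) h2

/-- The function `F_ε` on the circle. -/
def sym (ε : ℝ) : C(UnitAddCircle, ℂ) where
  toFun t := (numP ε).eval (t.toCircle : ℂ) / denQ.eval (t.toCircle : ℂ)
  continuous_toFun := by
    have h1 : Continuous fun t : UnitAddCircle => (t.toCircle : ℂ) :=
      continuous_subtype_val.comp AddCircle.continuous_toCircle
    exact ((numP ε).continuous.comp h1).div (denQ.continuous.comp h1)
      (fun t => denQ_ne _ (Circle.norm_coe _))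

lemma F_eq (ε : ℝ) (z : ℂ) (hz : ‖z‖ = 1) :
    (numP ε).eval z / denQ.eval z * (1 - (1/2 : ℂ) * z) =
      (1 - (1/2 : ℂ) * conj z) * (1 + (ε : ℂ) * ((1/2 : ℂ) * (z + conj z) - 1/2)) := by
  have h0 : z ≠ 0 := by rintro rfl; simp at hz
  have h1 : z * conj z = 1 := by
    rw [Complex.mul_conj, Complex.normSq_eq_norm_sq, hz]; norm_num
  have h2 : conj z = z⁻¹ := by
    field_simp
    rw [mul_comm]; exact h1
  have hq := denQ_ne z hz
  rw [h2]
  rw [div_mul_eq_mul_div, div_eq_iff hq]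
  simp only [numP, denQ, eval_mul, eval_pow, eval_X, eval_sub, eval_ofNat, eval_add, eval_C,
    eval_one]
  field_simp
  ring

/-- the Toeplitz operator with symbol `1 - z/2` -/
lemma toeplitz_K : toeplitz (1 - (1/2 : ℂ) • fourier 1) = 1 - (1/2 : ℂ) • shift := by
  rw [toeplitz_sub, toeplitz_one, toeplitz_smul]
  rfl

lemma K_mem : ∀ h ∈ hardySpace, mulOp (1 - (1/2 : ℂ) • fourier 1) h ∈ hardySpace := by
  intro h hh
  have : mulOp (1 - (1/2 : ℂ) • fourier 1) h = h - (1/2 : ℂ) • mulOp (fourier 1) h := by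
    rw [mulOp_sub, mulOp_smul, sub_apply, mulOp_one, smul_apply]
  rw [this]
  exact hardySpace.sub_mem hh (hardySpace.smul_mem _ (shift_mem h hh))

lemma toeplitz_sym (ε : ℝ) :
    toeplitz (sym ε) * (1 - (1/2 : ℂ) • shift) = (1 - (1/2 : ℂ) • star shift) *
      (1 + (ε : ℂ) • ((1/2 : ℂ) • (shift + star shift) - (1/2 : ℂ) • 1)) := by
  set ψ : C(UnitAddCircle, ℂ) := 1 - (1/2 : ℂ) • fourier 1 with hψ
  set χ : C(UnitAddCircle, ℂ) :=
    1 + (ε : ℂ) • ((1/2 : ℂ) • (fourier 1 + star (fourier 1)) - (1/2 : ℂ) • 1) with hχ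
  have h1 : sym ε * ψ = star ψ * χ := by
    ext t
    have := F_eq ε (t.toCircle : ℂ) (Circle.norm_coe _)
    simp only [ContinuousMap.mul_apply, hψ, hχ, ContinuousMap.sub_apply, ContinuousMap.one_apply,
      ContinuousMap.smul_apply, ContinuousMap.star_apply, ContinuousMap.add_apply, smul_eq_mul,
      fourier_one, star_sub, star_one, star_mul', RCLike.star_def, map_div₀, map_one, map_ofNat]
    simp only [sym, ContinuousMap.coe_mk]
    rw [this]
    ring
  have h2 : toeplitz χ = 1 + (ε : ℂ) • ((1/2 : ℂ) • (shift + star shift) - (1/2 : ℂ) • 1) := by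
    rw [hχ, toeplitz_add, toeplitz_one, toeplitz_smul, toeplitz_sub, toeplitz_smul, toeplitz_add,
      toeplitz_smul, toeplitz_one, toeplitz_star]
    rfl
  rw [← h2, ← toeplitz_K, ← hψ, ← toeplitz_mul _ _ K_mem, h1]
  have h3 : (1 - (1/2 : ℂ) • star shift) = star (toeplitz ψ) := by
    rw [hψ, toeplitz_K]; exact (star_K shift).symm
  rw [h3]
  have h4 : star ψ * χ = star (star χ * ψ) := by
    rw [star_mul, star_star]
  rw [h4, toeplitz_star, toeplitz_mul _ _ K_mem, toeplitz_star]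
  exact star_mul_aux _ _

lemma F_inj (ε : ℝ) (h0 : 0 < ε) (h1 : ε < 1/2) :
    Set.InjOn (fun z : ℂ => (numP ε).eval z / denQ.eval z) {z | ‖z‖ = 1} := by
  intro z hz w hw hzw
  simp only [Set.mem_ofPred_eq] at hz hw
  have hn : ∀ z : ℂ, ‖z‖ = 1 → (numP ε).eval z / denQ.eval z =
      (1 - (1/2 : ℂ) * conj z) / (1 - (1/2 : ℂ) * z) * ((1 + ε * (z.re - 1/2) : ℝ) : ℂ) := by
    intro z hz
    have hne : (1 - (1/2 : ℂ) * z) ≠ 0 := by
      intro h
      have : z = 2 := by linear_combination -2 * h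
      rw [this] at hz; norm_num at hz
    have := F_eq ε z hz
    rw [div_mul_eq_mul_div, eq_div_iff hne, this, Complex.add_conj]
    push_cast
    ring
  have hnorm : ∀ z : ℂ, ‖z‖ = 1 → ‖(numP ε).eval z / denQ.eval z‖ = 1 + ε * (z.re - 1/2) := by
    intro z hz
    have hne : (1 - (1/2 : ℂ) * z) ≠ 0 := by
      intro h
      have : z = 2 := by linear_combination -2 * h
      rw [this] at hz; norm_num at hz
    rw [hn z hz, norm_mul, norm_div]
    have hc : (1 - (1/2 : ℂ) * conj z) = conj (1 - (1/2 : ℂ) * z) := by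
      rw [map_sub, map_one, map_mul, map_div₀, map_one, Complex.conj_ofNat]
    rw [hc, RCLike.norm_conj, div_self (norm_ne_zero_iff.2 hne), one_mul, Complex.norm_real,
      Real.norm_of_nonneg]
    have h3 : |z.re| ≤ 1 := by rw [← hz]; exact Complex.abs_re_le_norm z
    have h4 := (abs_le.1 h3).1
    nlinarith
  have hre : z.re = w.re := by
    have := congrArg norm hzw
    simp only at this
    rw [hnorm z hz, hnorm w hw] at this
    have : ε * (z.re - w.re) = 0 := by linarith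
    rcases mul_eq_zero.1 this with h | h
    · linarith
    · linarith
  have hz2 : z.re ^ 2 + z.im ^ 2 = 1 := by
    have := Complex.sq_norm z
    rw [hz, Complex.normSq_apply] at this
    nlinarith
  have hw2 : w.re ^ 2 + w.im ^ 2 = 1 := by
    have := Complex.sq_norm w
    rw [hw, Complex.normSq_apply] at this
    nlinarith
  have him : z.im = w.im ∨ z.im = - w.im := by
    apply sq_eq_sq_iff_eq_or_eq_neg.1
    rw [hre] at hz2
    linarith
  rcases him with him | him
  · exact Complex.ext hre him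
  · have hwz : w = conj z := by
      apply Complex.ext
      · simp [hre]
      · simp [him]
    have hpos : (1 + ε * (z.re - 1/2) : ℝ) ≠ 0 := by
      have h3 : |z.re| ≤ 1 := by rw [← hz]; exact Complex.abs_re_le_norm z
      have h4 := (abs_le.1 h3).1
      have : 0 < 1 + ε * (z.re - 1/2) := by nlinarith
      exact this.ne'
    have hne : ∀ z : ℂ, ‖z‖ = 1 → (1 - (1/2 : ℂ) * z) ≠ 0 := by
      intro z hz h
      have : z = 2 := by linear_combination -2 * h
      rw [this] at hz; norm_num at hz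
    simp only at hzw
    rw [hn z hz, hn w hw, ← hre] at hzw
    have h5 := mul_right_cancel₀ (Complex.ofReal_ne_zero.2 hpos) hzw
    rw [hwz, Complex.conj_conj, div_eq_div_iff (hne z hz) (hne _ (by simpa using hz))] at h5
    have h6 : (z - conj z) * (2 - z.re) = 0 := by
      have h7 : z + conj z = 2 * z.re := by rw [Complex.add_conj]; push_cast; ring
      linear_combination (2 : ℂ) * h5 + (1/2 : ℂ) * (z - conj z) * h7
    rcases mul_eq_zero.1 h6 with h | h
    · rw [hwz]; linear_combination h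
    · exfalso
      have h8 := congrArg Complex.re h
      simp at h8
      have h3 : |z.re| ≤ 1 := by rw [← hz]; exact Complex.abs_re_le_norm z
      have h4 := (abs_le.1 h3).2
      linarith

/-! ## Identification of the Hardy space and of the Toeplitz operators -/

lemma isHardySpace_hardySpace : IsHardySpace hardySpace := by
  refine ⟨fun h => ⟨fun hh n hn => ?_, fun hh => ?_⟩⟩
  · have h1 : hardySpace ≤ (innerSL ℂ (fourierLp 2 n : L2T)).toLinearMap.ker := by
      apply Submodule.topologicalClosure_minimal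
      · rw [Submodule.span_le]
        rintro _ ⟨m, rfl⟩
        simp only [SetLike.mem_coe, LinearMap.mem_ker, ContinuousLinearMap.coe_coe,
          innerSL_apply_apply]
        apply (orthonormal_fourier (T := 1)).2
        omega
      · exact (innerSL ℂ (fourierLp 2 n : L2T)).isClosed_ker
    have h2 := h1 hh
    rw [LinearMap.mem_ker, ContinuousLinearMap.coe_coe, innerSL_apply_apply] at h2
    have h3 := fourierBasis_repr (T := 1) h n
    rw [← h3, HilbertBasis.repr_apply_apply, coe_fourierBasis]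
    exact h2
  · have h1 := hasSum_fourier_series_L2 (T := 1) h
    refine (Submodule.isClosed_topologicalClosure _).mem_of_tendsto h1 ?_
    filter_upwards with s
    refine Submodule.le_topologicalClosure _ (Submodule.sum_mem _ fun n _ => ?_)
    by_cases hn : n < 0
    · rw [hh n hn, zero_smul]; exact Submodule.zero_mem _
    · refine Submodule.smul_mem _ _ (Submodule.subset_span ⟨n.toNat, ?_⟩)
      simp only
      rw [Int.toNat_of_nonneg (not_lt.1 hn)]

lemma isToeplitz_toeplitz (φ : C(UnitAddCircle, ℂ)) : IsToeplitz hardySpace φ (toeplitz φ) :=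
  ⟨fun h => ⟨mulOp φ h, mulOp_coe φ h, Submodule.sub_starProjection_mem_orthogonal _⟩⟩

/-- **Disproof of Q1.**  There is a rational function `F = P / Q` without poles on the unit circle
`𝕋` which is injective on `𝕋` (so `F(𝕋)` is itself a simple closed curve), such that the spectrum of
the Toeplitz operator `T = T_F` on the Hardy space `K = H²` is not a spectral set for `T_F`. -/
theorem result :
    ∃ P Q : ℂ[X], (∀ z : ℂ, ‖z‖ = 1 → Q.eval z ≠ 0) ∧
      Set.InjOn (fun z => P.eval z / Q.eval z) {z | ‖z‖ = 1} ∧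
      ∃ (K : Submodule ℂ (Lp ℂ 2 (haarAddCircle : Measure UnitAddCircle))) (T : K →L[ℂ] K),
        IsHardySpace K ∧
        IsToeplitz K (fun t => P.eval (t.toCircle : ℂ) / Q.eval (t.toCircle : ℂ)) T ∧
        ¬ IsSpectralSet (spectrum ℂ T) T := by
  have h := abstract_main shift star_shift_mul e0 norm_e0 star_shift_e0 (fun ε => toeplitz (sym ε))
    toeplitz_sym
  have h2 : ∀ᶠ ε in 𝓝[>] (0 : ℝ),
      ¬ IsSpectralSet (spectrum ℂ (toeplitz (sym ε))) (toeplitz (sym ε)) :=
    h.filter_mono nhdsWithin_le_nhds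
  have h3 : ∀ᶠ ε in 𝓝[>] (0 : ℝ), ε < 1/2 :=
    (eventually_lt_nhds (by norm_num : (0:ℝ) < 1/2)).filter_mono nhdsWithin_le_nhds
  have h4 : ∀ᶠ ε in 𝓝[>] (0 : ℝ), 0 < ε := eventually_mem_nhdsWithin
  obtain ⟨ε, hε, hε1, hε0⟩ := (h2.and (h3.and h4)).exists
  exact ⟨numP ε, denQ, denQ_ne, F_inj ε hε0 hε1, hardySpace, toeplitz (sym ε),
    isHardySpace_hardySpace, isToeplitz_toeplitz (sym ε), hε⟩

end

end Pool.Agent.Results.MP_3abc29_an.NotSpectral
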